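import Mathlib
import Pool.Agent.Lib.MP_436b38_co.Final

set_option autoImplicit false

/-!
# MP_436b38_co, Q1 (Gessel): full answer, polynomial form with uniqueness
-/

namespace Pool.Agent.Results.MP_436b38_co.GammaExpansion

open Finset MvPolynomial

/-- The number of descents of `π`: the number of `k` in `[n-1]` with `π (k) > π (k+1)`. -/
def des {n : ℕ} (π : Equiv.Perm (Fin n)) : ℕ :=
  (Finset.univ.filter (fun k : Fin n => ∃ l : Fin n, l.val = k.val + 1 ∧ π l < π k)).card

/-- `F_τ(s,t)`, a polynomial in the two variables `s = X 0` and `t = X 1`. -/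
noncomputable def F {n : ℕ} (τ : Equiv.Perm (Fin n)) : MvPolynomial (Fin 2) ℝ :=
  ∑ π : Equiv.Perm (Fin n), X 0 ^ (des π + 1) * X 1 ^ (des (π⁻¹ * τ) + 1)

/-- The right hand side of a gamma-expansion with coefficients `c i j` (`2 i + j ≤ n + 1`). -/
noncomputable def gammaSum (n : ℕ) (c : ℕ → ℕ → ℝ) : MvPolynomial (Fin 2) ℝ :=
  ∑ p ∈ (Finset.range (n + 2) ×ˢ Finset.range (n + 2)).filter (fun p => 2 * p.1 + p.2 ≤ n + 1),
    C (c p.1 p.2) * (1 + X 0 * X 1) ^ (n + 1 - 2 * p.1 - p.2) * (X 0 * X 1) ^ p.1 *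
      (X 0 + X 1) ^ p.2

theorem gammaSum_sub (n : ℕ) (c d : ℕ → ℕ → ℝ) :
    gammaSum n c - gammaSum n d = gammaSum n (fun i j => c i j - d i j) := by
  unfold gammaSum
  rw [← Finset.sum_sub_distrib]
  refine Finset.sum_congr rfl fun p _ => ?_
  rw [C_sub]
  ring

/-- coefficient extraction in one variable -/
theorem coeff_zero_of (M : ℕ) (e : ℕ → ℕ) (d : ℕ → ℂ) (s : Finset ℕ)
    (h : ∑ i ∈ s, Polynomial.C (d i) * (Polynomial.X ^ i * (1 + Polynomial.X) ^ e i) = 0) :
    ∀ i ∈ s, i ≤ M → d i = 0 := by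
  induction M using Nat.strong_induction_on with
  | _ M ih =>
    intro i hi hiM
    rcases Nat.lt_or_ge i M with hlt | hge
    · exact ih i hlt i hi le_rfl
    · have hiM' : i = M := le_antisymm hiM hge
      have h1 := congrArg (fun q => Polynomial.coeff q i) h
      simp only [Polynomial.finset_sum_coeff, Polynomial.coeff_C_mul, Polynomial.coeff_zero] at h1
      rw [Finset.sum_eq_single_of_mem i hi] at h1
      · rw [Polynomial.coeff_X_pow_mul' , if_pos le_rfl, Nat.sub_self,
          Polynomial.coeff_zero_eq_eval_zero] at h1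
        simpa using h1
      · intro b hb hbi
        rcases Nat.lt_or_ge b i with hlt | hge
        · rw [ih b (by omega) b hb le_rfl, zero_mul]
        · rw [Polynomial.coeff_X_pow_mul', if_neg (by omega), mul_zero]

theorem gammaSum_inj (n : ℕ) (d : ℕ → ℕ → ℝ) (h : gammaSum n d = 0) :
    ∀ i j : ℕ, 2 * i + j ≤ n + 1 → d i j = 0 := by
  -- evaluate at complex points
  have h1 : ∀ u v : ℂ, ∑ p ∈ (Finset.range (n + 2) ×ˢ Finset.range (n + 2)).filter
      (fun p => 2 * p.1 + p.2 ≤ n + 1),
      (d p.1 p.2 : ℂ) * (1 + v) ^ (n + 1 - 2 * p.1 - p.2) * v ^ p.1 * u ^ p.2 = 0 := by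
    intro u v
    obtain ⟨w, hw⟩ := IsAlgClosed.exists_pow_nat_eq (u ^ 2 - 4 * v) (n := 2) (by norm_num)
    set s : ℂ := (u + w) / 2 with hs
    set t : ℂ := (u - w) / 2 with ht
    have hst : s + t = u := by rw [hs, ht]; ring
    have hmul : s * t = v := by
      rw [hs, ht]
      have : (u + w) / 2 * ((u - w) / 2) = (u ^ 2 - w ^ 2) / 4 := by ring
      rw [this, hw]; ring
    have h2 := congrArg (MvPolynomial.aeval (fun i : Fin 2 => if i = 0 then s else t)) h
    unfold gammaSum at h2
    rw [map_sum, map_zero] at h2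
    rw [← h2]
    refine Finset.sum_congr rfl fun p _ => ?_
    simp only [map_mul, map_pow, map_add, map_one, aeval_X, aeval_C, Fin.isValue, if_true,
      one_ne_zero, if_false]
    rw [hst, hmul]
    rfl
  intro i j hij
  -- coefficient of `u ^ j`
  have h3 : ∀ v : ℂ, ∑ a ∈ (Finset.range (n + 2)).filter (fun a => 2 * a + j ≤ n + 1),
      (d a j : ℂ) * (v ^ a * (1 + v) ^ (n + 1 - 2 * a - j)) = 0 := by
    intro v
    have h4 : ∑ p ∈ (Finset.range (n + 2) ×ˢ Finset.range (n + 2)).filter
        (fun p => 2 * p.1 + p.2 ≤ n + 1),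
        Polynomial.C ((d p.1 p.2 : ℂ) * (1 + v) ^ (n + 1 - 2 * p.1 - p.2) * v ^ p.1) *
          Polynomial.X ^ p.2 = 0 := by
      apply Polynomial.funext
      intro u
      rw [Polynomial.eval_finset_sum, Polynomial.eval_zero, ← h1 u v]
      refine Finset.sum_congr rfl fun p _ => ?_
      simp
    have h5 := congrArg (fun q => Polynomial.coeff q j) h4
    simp only [Polynomial.finset_sum_coeff, Polynomial.coeff_C_mul, Polynomial.coeff_X_pow,
      Polynomial.coeff_zero] at h5
    rw [← h5]
    symm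
    rw [Finset.sum_filter, Finset.sum_product, Finset.sum_filter]
    refine Finset.sum_congr rfl fun a ha => ?_
    rw [Finset.sum_eq_single j]
    · simp only [if_true, mul_one]
      split_ifs
      · ring
      · rfl
    · intro b _ hb
      rw [if_neg (Ne.symm hb)]
      simp
    · intro hj
      have : ¬ (2 * a + j ≤ n + 1) := by
        intro hle
        exact hj (Finset.mem_range.2 (by omega))
      simp [this]
  have h6 : ∑ a ∈ (Finset.range (n + 2)).filter (fun a => 2 * a + j ≤ n + 1),
      Polynomial.C (d a j : ℂ) * (Polynomial.X ^ a * (1 + Polynomial.X) ^ (n + 1 - 2 * a - j)) =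
        0 := by
    apply Polynomial.funext
    intro v
    rw [Polynomial.eval_finset_sum, Polynomial.eval_zero, ← h3 v]
    refine Finset.sum_congr rfl fun a _ => ?_
    simp
  have h7 := coeff_zero_of i (fun a => n + 1 - 2 * a - j) (fun a => (d a j : ℂ))
    _ h6 i (Finset.mem_filter.2 ⟨Finset.mem_range.2 (by omega), hij⟩) le_rfl
  exact_mod_cast h7

/-- **Full (affirmative) answer to Q1.** For every `n ≥ 1` there are natural numbers
`Γ d i j` such that for every permutation `τ` of `[n]`, the numbers `Γ (des τ) i j` are the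
coefficients of a gamma-expansion of `F_τ`, and this is the only gamma-expansion of `F_τ` with
real coefficients. -/
theorem result (n : ℕ) (hn : 1 ≤ n) :
    ∃ Γ : ℕ → ℕ → ℕ → ℕ, ∀ τ : Equiv.Perm (Fin n),
      F τ = gammaSum n (fun i j => (Γ (des τ) i j : ℝ)) ∧
      ∀ c : ℕ → ℕ → ℝ, F τ = gammaSum n c →
        ∀ i j : ℕ, 2 * i + j ≤ n + 1 → c i j = Γ (des τ) i j := by
  obtain ⟨m, rfl⟩ : ∃ m, n = m + 1 := ⟨n - 1, by omega⟩
  choose Γ hΓ using fun k => Pool.Agent.Lib.MP_436b38_co.nat_expansion (m := m) k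
  refine ⟨Γ, fun τ => ?_⟩
  have hmain : F τ = gammaSum (m + 1) (fun i j => (Γ (des τ) i j : ℝ)) := by
    -- both sides come from integer polynomials that agree at all integer points
    set P : MvPolynomial (Fin 2) ℤ :=
      ∑ π : Equiv.Perm (Fin (m + 1)), X 0 ^ (des π + 1) * X 1 ^ (des (π⁻¹ * τ) + 1) with hP
    set Q : MvPolynomial (Fin 2) ℤ :=
      ∑ p ∈ (Finset.range (m + 1 + 2) ×ˢ Finset.range (m + 1 + 2)).filter
        (fun p => 2 * p.1 + p.2 ≤ m + 1 + 1),
        C (Γ (des τ) p.1 p.2 : ℤ) * (1 + X 0 * X 1) ^ (m + 1 + 1 - 2 * p.1 - p.2) *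
          (X 0 * X 1) ^ p.1 * (X 0 + X 1) ^ p.2 with hQ
    have hPQ : P = Q := by
      apply MvPolynomial.funext
      intro x
      have h1 := hΓ (des τ) τ rfl (x 0) (x 1)
      have h2 : MvPolynomial.eval x P = ∑ π : Equiv.Perm (Fin (m + 1)),
          x 0 ^ (des π + 1) * x 1 ^ (des (π⁻¹ * τ) + 1) := by
        rw [hP, map_sum]
        refine Finset.sum_congr rfl fun π _ => ?_
        simp
      rw [h2]
      refine Eq.trans h1 ?_
      rw [hQ, map_sum, Finset.sum_filter, Finset.sum_product]
      refine Finset.sum_congr rfl fun i _ => ?_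
      rw [← Finset.sum_filter]
      refine Finset.sum_congr ?_ fun j _ => ?_
      · ext j
        simp only [Finset.mem_range, Finset.mem_filter]
        omega
      · simp only [map_mul, map_pow, map_add, map_one, eval_X, eval_C, map_natCast]
        rw [show m + 1 + 1 - j - 2 * i = m + 1 + 1 - 2 * i - j from by omega]
        ring
    have h3 := congrArg (MvPolynomial.map (Int.castRingHom ℝ)) hPQ
    have h4 : MvPolynomial.map (Int.castRingHom ℝ) P = F τ := by
      rw [hP, map_sum]
      unfold F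
      refine Finset.sum_congr rfl fun π _ => ?_
      simp
    have h5 : MvPolynomial.map (Int.castRingHom ℝ) Q =
        gammaSum (m + 1) (fun i j => (Γ (des τ) i j : ℝ)) := by
      rw [hQ, map_sum]
      unfold gammaSum
      refine Finset.sum_congr rfl fun p _ => ?_
      simp
    rw [h4, h5] at h3
    exact h3
  refine ⟨hmain, fun c hc i j hij => ?_⟩
  have h0 : gammaSum (m + 1) (fun i j => c i j - (Γ (des τ) i j : ℝ)) = 0 := by
    rw [← gammaSum_sub, ← hc, ← hmain, sub_self]
  have := gammaSum_inj (m + 1) _ h0 i j hij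
  linarith

end Pool.Agent.Results.MP_436b38_co.GammaExpansion
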